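import Mathlib
import Pool.Agent.Y723.Z8.Stm
import Pool.Agent.N870.D.Mak
import Pool.Agent.TH841.PM.Expt

/-!
# Project H (helper870), part MAK8: the main average for the `k`-th powers, torsion `Z/2 x Z/8`
-/

set_option autoImplicit false

namespace Pool.Agent.N572.H

open Finset Pool.Agent.W262.RK Pool.Agent.W307.RT Pool.Agent.TH841.PT Pool.Agent.TH841.PM
open Pool.Agent.Y723.Z8

open Pool.Agent.TH841.TR (CA CB CA.scale CB.scale CA.mono CB.mono)

open Pool.Agent.N870.D (ATXD CD HypD c4 nz ph ZK cmbK CDscale CDmono)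

open Pool.Agent.W307.FK (dt)

/-- the classes of the seven forms -/
def c73' : Fin 7 → Fin 3 := ![0, 0, 1, 1, 2, 2, 2]

/-- the split forms -/
def sp7' (j : Fin 7) : Bool := decide (j.val < 5)

lemma c4_c73 : c4 c73' = c7 := by
  funext j
  revert j
  decide

lemma c7_ne3 (j : Fin 7) : c7 j ≠ 3 := by revert j; decide

lemma cls8_ne3 (i : Fin 7 × Bool) : cls8 i ≠ 3 := c7_ne3 i.1

/-! ### The local count -/

lemma P3_cls8 (s : Fin 7 × Bool → ℕ) : P3 cls8 s = ∅ := by
  unfold P3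
  have h : univ.filter (fun j => cls8 j = 3) = ∅ :=
    filter_false_of_mem (fun j _ => cls8_ne3 j)
  rw [h, prod_empty, Nat.primeFactors_one]

lemma NBT_pow (k : ℕ) (s : Fin 7 × Bool → ℕ) : NBT cls8 e8 s ^ k = NBK k cls8 e8 s := by
  unfold NBT NBK
  rw [P3_cls8, card_empty, pow_zero, one_mul, one_mul, powerset_empty, sum_singleton,
    sum_singleton]

/-! ### The index set -/

/-- the index set of the expansion -/
def eB (k : ℕ) : IK4 cls8 k ≃ IK4 c7 k × Bool where
  toFun i := (⟨(i.1.1.1, i.1.2), i.2⟩, i.1.1.2)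
  invFun x := ⟨((x.1.1.1, x.2), x.1.1.2), x.1.2⟩
  left_inv _ := rfl
  right_inv _ := rfl

lemma wK7 {k : ℕ} (i : IK4 c7 k) : wK c7 i = 1 / 2 ^ k := by
  unfold wK
  rw [if_neg (c7_ne3 _)]

lemma κK_cls8 (k : ℕ) : κK4 cls8 (k := k) = fun _ => 1 := by
  funext i
  unfold κK4
  have hm : ∀ b, Pool.Agent.TH841.PM.mt (cls8 i.1.1) (i.1.2.1 b) (i.1.2.2 b) = false := by
    intro b
    unfold Pool.Agent.TH841.PM.mt
    rw [decide_eq_false (cls8_ne3 i.1.1)]
    rfl
  simp only [hm]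
  simp

lemma bt_ne {c : Fin 4} (hc : c ≠ 3) (e : Fin 3 → Bool) (v x : Bool × Bool) :
    bt c e v x = (nz v && nz x && e 0) := by
  unfold bt nz
  rw [if_neg hc]

/-- the number of the coordinates where both vectors are not zero -/
def dd {k : ℕ} (i : IK4 c7 k) : ℕ := dt k (fun b => nz (i.1.2.1 b)) (fun b => nz (i.1.2.2 b))

lemma bK_false {k : ℕ} (i : IK4 c7 k) : bK cls8 e8 ((eB k).symm (i, false)) = false := by
  unfold bK
  have h : ∀ b, bt (cls8 ((eB k).symm (i, false)).1.1) (e8 ((eB k).symm (i, false)).1.1)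
      (((eB k).symm (i, false)).1.2.1 b) (((eB k).symm (i, false)).1.2.2 b) = false := by
    intro b
    rw [bt_ne (cls8_ne3 ((eB k).symm (i, false)).1.1)]
    have : e8 ((eB k).symm (i, false)).1.1 0 = false := rfl
    rw [this, Bool.and_false]
  simp only [h]
  simp

lemma bK_true {k : ℕ} (i : IK4 c7 k) :
    bK cls8 e8 ((eB k).symm (i, true)) = decide (dd i % 2 = 1) := by
  unfold bK dd dt
  have h : ∀ b, bt (cls8 ((eB k).symm (i, true)).1.1) (e8 ((eB k).symm (i, true)).1.1)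
      (((eB k).symm (i, true)).1.2.1 b) (((eB k).symm (i, true)).1.2.2 b) =
      (nz (i.1.2.1 b) && nz (i.1.2.2 b)) := by
    intro b
    rw [bt_ne (cls8_ne3 ((eB k).symm (i, true)).1.1)]
    have : e8 ((eB k).symm (i, true)).1.1 0 = true := rfl
    rw [this, Bool.and_true]
    rfl
  simp only [h]

/-! ### The letters -/

lemma al_a : ∀ j : Fin 7, Al (c7 j) (false, false) (false, false) = true := by decide

lemma al_b : ∀ j : Fin 7, Al (c7 j) (Pool.Agent.W262.RK.ec (c7 j))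
    (Pool.Agent.W262.RK.ec (c7 j)).swap = true := by decide

lemma ec_ne : ∀ j : Fin 7, Pool.Agent.W262.RK.ec (c7 j) ≠ (false, false) ∧
    (Pool.Agent.W262.RK.ec (c7 j)).swap ≠ (false, false) := by decide

/-- the letter with the same weights -/
def lt8 (j : Fin 7) : Bool → I8
  | true => (⟨(j, Pool.Agent.W262.RK.ec (c7 j), (Pool.Agent.W262.RK.ec (c7 j)).swap), al_b j⟩,
      false)
  | false => (⟨(j, (false, false), (false, false)), al_a j⟩, false)

lemma s8_true (j : Fin 7) (p : ℕ) :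
    s8 (lt8 j true) p = (rr8 (j, false) p - rr8 (j, true) p) / 4 := by
  have h : s8 (lt8 j true) p = (rr8 (j, false) p +
      (if Pool.Agent.W262.RK.ec (c7 j) = (false, false) ∨
        (Pool.Agent.W262.RK.ec (c7 j)).swap = (false, false) then 1 else -1) *
      rr8 (j, true) p) / 4 := rfl
  rw [h, if_neg (by
    have := ec_ne j
    rintro (h | h)
    · exact this.1 h
    · exact this.2 h)]
  ring

lemma s8_false (j : Fin 7) (p : ℕ) :
    s8 (lt8 j false) p = (rr8 (j, false) p + rr8 (j, true) p) / 4 := by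
  have h : s8 (lt8 j false) p = (rr8 (j, false) p +
      (if ((false, false) : Bool × Bool) = (false, false) ∨
        ((false, false) : Bool × Bool) = (false, false) then 1 else -1) *
      rr8 (j, true) p) / 4 := rfl
  rw [h, if_pos (Or.inl rfl)]
  ring

lemma g8_lt (j : Fin 7) (o : Bool) (p : ℕ) :
    g8 (lt8 j o) p = (rr8 (j, false) p + rr8 (j, true) p) / 4 := by
  cases o <;> rfl

lemma lt8_N {j : Fin 7} (hj : 5 ≤ j.val) : lt8 j true ∈ N8s := by
  unfold N8s
  exact mem_filter.2 ⟨mem_univ _, hj, (ec_ne j).1, (ec_ne j).2⟩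

lemma rr8_nonneg (i : Fin 7 × Bool) (p : ℕ) : 0 ≤ rr8 i p := by
  unfold rr8
  split_ifs <;> norm_num

lemma rr8_le (i : Fin 7 × Bool) (p : ℕ) : rr8 i p ≤ 2 := by
  unfold rr8
  split_ifs <;> norm_num

/-- the signed weights -/
noncomputable def aB {k : ℕ} (i : IK4 c7 k) (p : ℕ) : ℝ :=
  4 * wK c7 i * s8 (lt8 i.1.1 (decide (dd i % 2 = 1))) p

/-- the absolute weights -/
noncomputable def bB {k : ℕ} (i : IK4 c7 k) (p : ℕ) : ℝ :=
  4 * wK c7 i * g8 (lt8 i.1.1 (decide (dd i % 2 = 1))) p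

lemma aB_eq {k : ℕ} (i : IK4 c7 k) (p : ℕ) : ∑ b : Bool, wK c7 i *
    ((if bK cls8 e8 ((eB k).symm (i, b)) then -1 else 1) * rr8 (i.1.1, b) p) = aB i p := by
  rw [Fintype.sum_bool, bK_false, bK_true]
  unfold aB
  by_cases h : dd i % 2 = 1
  · rw [decide_eq_true h, s8_true]
    simp only [reduceIte, Bool.false_eq_true]
    ring
  · rw [decide_eq_false h, s8_false]
    simp only [reduceIte, Bool.false_eq_true]
    ring

lemma wK7_pos {k : ℕ} (i : IK4 c7 k) : 0 < wK c7 i := by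
  rw [wK7]
  positivity

lemma wK7_le {k : ℕ} (i : IK4 c7 k) : wK c7 i ≤ 1 := by
  rw [wK7, div_le_one (by positivity)]
  exact one_le_pow₀ (by norm_num)

lemma ab_abs {k : ℕ} (i : IK4 c7 k) (p : ℕ) : |aB i p| ≤ bB i p := by
  unfold aB bB
  have h0 := rr8_nonneg (i.1.1, false) p
  have h1 := rr8_nonneg (i.1.1, true) p
  have hw := wK7_pos i
  rw [abs_mul, abs_of_nonneg (by positivity : 0 ≤ 4 * wK c7 i)]
  refine mul_le_mul_of_nonneg_left ?_ (by positivity)
  rw [g8_lt]
  cases decide (dd i % 2 = 1)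
  · rw [s8_false, abs_of_nonneg (by linarith)]
  · rw [s8_true, abs_le]
    constructor <;> linarith

lemma bB_le {k : ℕ} (i : IK4 c7 k) (p : ℕ) : bB i p ≤ 4 := by
  unfold bB
  rw [g8_lt]
  have h0 := rr8_nonneg (i.1.1, false) p
  have h1 := rr8_nonneg (i.1.1, true) p
  have h2 := rr8_le (i.1.1, false) p
  have h3 := rr8_le (i.1.1, true) p
  have hw1 := wK7_le i
  calc 4 * wK c7 i * ((rr8 (i.1.1, false) p + rr8 (i.1.1, true) p) / 4)
      = wK c7 i * (rr8 (i.1.1, false) p + rr8 (i.1.1, true) p) := by ring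
    _ ≤ 1 * (rr8 (i.1.1, false) p + rr8 (i.1.1, true) p) :=
      mul_le_mul_of_nonneg_right hw1 (by linarith)
    _ ≤ 4 := by linarith

/-! ### The expansion -/

theorem expB (hexp : EXPK) (hm : MERGE) (k z y : ℕ) (hz : 2 ≤ z) :
    ∑ s ∈ Tup (Fin 7 × Bool) z y, NBK k cls8 e8 s * ∏ i, gp (rr8 i) 10 (s i) =
      ∑ d ∈ Tup (IK4 c7 k) z y, (∏ i : IK4 c7 k, gp (aB i) 10 (d i)) *
        Sym (LK4 c7) (fun _ => 1) d := by
  have h0 := hexp (Fin 7 × Bool) cls8 e8 rr8 k 10 z y hz (fun _ => 1)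
  simp only [mul_one] at h0
  rw [h0, κK_cls8, sum_Tup_equiv (eB k)]
  have h1 := hm (IK4 c7 k) Bool (fun x p => wK c7 x.1 *
    ((if bK cls8 e8 ((eB k).symm x) then -1 else 1) * rr8 (x.1.1.1, x.2) p)) 10 z y
    (fun d => Sym (LK4 c7) (fun _ => 1) d)
  have h2 : ∀ i : IK4 c7 k, (fun p => ∑ b : Bool, wK c7 i *
    ((if bK cls8 e8 ((eB k).symm (i, b)) then -1 else 1) * rr8 (i.1.1, b) p)) = aB i :=
    fun i => funext fun p => aB_eq i p
  simp only [h2] at h1
  rw [← h1]
  refine sum_congr rfl fun d hd => ?_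
  rw [← Sym_merge (LK4 c7) (fun _ => 1) d fun x => Tup_ne hd x,
    ← Sym_equiv (eB k) (fun x y : IK4 c7 k × Bool => LK4 c7 x.1 y.1) (fun _ => 1) d]
  congr 1
  rw [← (eB k).prod_comp]
  rfl

/-! ### The unlinked sets -/

lemma key (hcmb : Pool.Agent.N870.D.S_CMB) {k : ℕ} (hk : 1 ≤ k) {E : ℝ} (hE : 0 ≤ E)
    (hE' : ∀ c : Fin 3, Pool.Agent.N870.D.ec c73' sp7' k c ≤ E) :
    ∃ Z : Finset (IK4 c7 k), (∀ i ∈ Z, 5 ≤ i.1.1.val ∧ dd i % 2 = 1) ∧
      CA (LK4 c7) Z (wK c7) (7 + E) ∧ CB (LK4 c7) Z (wK c7) (7 + E - 1 / 2 ^ k) ∧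
      CD (LK4 c7) Z (wK c7) (7 + E - 1 / 2 ^ k) := by
  have hcard : (Fintype.card (Fin 7) : ℝ) = 7 := by simp
  obtain ⟨h1, h2, h3⟩ := cmbK hcmb c73' sp7' hk (by decide) (T := 7 + E)
    (by rw [hcard]; linarith) (fun c => by rw [hcard]; linarith [hE' c])
  have hgen : ∀ cls : Fin 7 → Fin 4, c4 c73' = cls → ∃ Z : Finset (IK4 cls k),
      (∀ i ∈ Z, 5 ≤ i.1.1.val ∧
        dt k (fun b => nz (i.1.2.1 b)) (fun b => nz (i.1.2.2 b)) % 2 = 1) ∧
      CA (LK4 cls) Z (wK cls) (7 + E) ∧ CB (LK4 cls) Z (wK cls) (7 + E - 1 / 2 ^ k) ∧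
      CD (LK4 cls) Z (wK cls) (7 + E - 1 / 2 ^ k) := by
    intro cls hcls
    subst hcls
    refine ⟨ZK c73' sp7' k, ?_, h1, h2, h3⟩
    intro i hi
    have h4 := (mem_filter.1 (mem_filter.1 hi).2).2
    refine ⟨?_, h4.2⟩
    have h5 : sp7' i.1.1 = false := h4.1
    unfold sp7' at h5
    have := of_decide_eq_false h5
    omega
  exact hgen c7 c4_c73

lemma loglog_nn {y : ℕ} (hy : 3 ≤ y) : 0 ≤ Real.log (Real.log y) := by
  have h3 : (3 : ℝ) ≤ y := by exact_mod_cast hy
  apply Real.log_nonneg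
  rw [Real.le_log_iff_exp_le (by linarith)]
  have := Real.exp_one_lt_d9
  linarith

/-- **the main average for the `k`-th powers** -/
theorem mak8_of (hats : ATXD) (hcmb : Pool.Agent.N870.D.S_CMB) (hmer : MERGE) (hexp : EXPK)
    (hw : S_WGT) {k : ℕ} {E : ℝ} (hk : 1 ≤ k) (hE : 0 ≤ E)
    (hE' : ∀ c : Fin 3, Pool.Agent.N870.D.ec c73' sp7' k c ≤ E) :
    ∃ z0 : ℕ, ∀ z, z0 ≤ z → ∃ C : ℝ, ∀ y, z < y →
      ∑ s ∈ Tup (Fin 7 × Bool) z y, NBT cls8 e8 s ^ k * ∏ i, gp (rr8 i) 10 (s i) ≤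
        C * (Real.log y) ^ ((7 : ℝ) + E) := by
  obtain ⟨Z, hZ, hCA, hCB, hCD⟩ := key hcmb hk hE hE'
  refine ⟨2 * 10 + 2 + Fintype.card (IK4 c7 k) * 8, fun z hz => ?_⟩
  have hz10 : 10 ≤ z := by omega
  obtain ⟨W, hW1, hW2, hW3⟩ := hw z hz10
  have hW0 : W ≤ |W| := le_abs_self W
  have hWn : 0 ≤ |W| := abs_nonneg W
  -- the sums of the weights
  have hSb : ∀ (i : IK4 c7 k) (y : ℕ), Sp (bB i) z y =
      4 * wK c7 i * Sp (g8 (lt8 i.1.1 (decide (dd i % 2 = 1)))) z y := by
    intro i y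
    unfold Sp bB
    rw [mul_sum]
    refine sum_congr rfl fun p _ => ?_
    ring
  have hSw : ∀ y, z < y → ∀ i : IK4 c7 k, Sp (bB i) z y ≤
      wK c7 i * (Real.log (Real.log y) + 4 * |W|) := by
    intro y hy i
    rw [hSb]
    have h1 := (abs_le.1 (hW1 (lt8 i.1.1 (decide (dd i % 2 = 1))) y hy)).2
    have h2 := wK7_pos i
    nlinarith
  have hSl : ∀ y, z < y → ∀ i : IK4 c7 k,
      wK c7 i * (Real.log (Real.log y) - 4 * |W|) ≤ Sp (bB i) z y := by
    intro y hy i
    rw [hSb]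
    have h1 := (abs_le.1 (hW1 (lt8 i.1.1 (decide (dd i % 2 = 1))) y hy)).1
    have h2 := wK7_pos i
    nlinarith
  have hll : ∀ y, z < y → 0 ≤ Real.log (Real.log y) := fun y hy => loglog_nn (by omega)
  have hδ0 : (0 : ℝ) < 1 / 2 ^ k := by positivity
  have hfin : ∀ y, z < y → (7 + E - 1 / 2 ^ k) * (Real.log (Real.log y) + 4 * |W|) ≤
      (7 + E) * (Real.log (Real.log y) + 4 * |W|) + 4 * |W| -
        1 / 2 ^ k * Real.log (Real.log y) := by
    intro y hy
    have h3 : 0 ≤ 1 / 2 ^ k * (4 * |W|) := by positivity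
    nlinarith
  obtain ⟨C, hC⟩ := hats 8 (by norm_num) (IK4 c7 k) aB bB (LK4 c7) Z 10 z (1 / 2 ^ k) (4 * |W|) 4
    (fun y => (7 + E) * (Real.log (Real.log y) + 4 * |W|))
    (by
      intro i p
      have := bB_le i p
      push_cast
      linarith)
    { ab := ab_abs
      LL := LK4_self c7
      hz := by omega
      hδ := hδ0
      hE := by norm_num
      hC := by positivity
      low := by
        intro i y hy
        have h1 := hSl y hy i
        have h2 := wK7 i
        have h3 := wK7_le i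
        have h4 : wK c7 i * (4 * |W|) ≤ 1 * (4 * |W|) :=
          mul_le_mul_of_nonneg_right h3 (by positivity)
        rw [← h2]
        nlinarith
      H1 := by
        intro i hi y hy
        obtain ⟨h1, h2⟩ := hZ i hi
        have h3 := hW2 _ (lt8_N h1) y hy
        have h4 : ∑ p ∈ PS z y, aB i p / (p : ℝ) = 4 * wK c7 i * Sp (s8 (lt8 i.1.1 true)) z y := by
          unfold Sp aB
          rw [mul_sum, decide_eq_true h2]
          refine sum_congr rfl fun p _ => ?_
          ring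
        rw [h4]
        have h5 := wK7_pos i
        have h6 := wK7_le i
        have h7 : wK c7 i * Sp (s8 (lt8 i.1.1 true)) z y ≤ wK c7 i * |W| :=
          mul_le_mul_of_nonneg_left (h3.trans hW0) h5.le
        have h8 : wK c7 i * |W| ≤ 1 * |W| := mul_le_mul_of_nonneg_right h6 hWn
        nlinarith
      H2 := by
        intro i y r e hy hr hsq hpr
        have h1 := hW3 (lt8 i.1.1 (decide (dd i % 2 = 1))) y r e hy hr hsq hpr
        have h2 : ∑ p ∈ PS z y, aB i p * (Jr p r * x4 e p) / (p : ℝ) =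
            4 * wK c7 i * ∑ p ∈ PS z y, s8 (lt8 i.1.1 (decide (dd i % 2 = 1))) p *
              (Jr p r * x4 e p) / (p : ℝ) := by
          unfold aB
          rw [mul_sum]
          refine sum_congr rfl fun p _ => ?_
          ring
        rw [h2]
        have hlr := loglog_nonneg (by omega : 2 ≤ z) hr hpr
        have h5 := wK7_pos i
        have h6 := wK7_le i
        set S := ∑ p ∈ PS z y, s8 (lt8 i.1.1 (decide (dd i % 2 = 1))) p *
              (Jr p r * x4 e p) / (p : ℝ)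
        have h7 : wK c7 i * S ≤ wK c7 i * (Real.log (Real.log r) + |W|) :=
          mul_le_mul_of_nonneg_left (by linarith) h5.le
        have h8 : wK c7 i * (Real.log (Real.log r) + |W|) ≤ 1 * (Real.log (Real.log r) + |W|) :=
          mul_le_mul_of_nonneg_right h6 (by positivity)
        nlinarith
      CA := by
        intro y hy
        have hT : 0 ≤ Real.log (Real.log y) + 4 * |W| := by have := hll y hy; positivity
        exact hCA.scale hT (hSw y hy)
      CB := by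
        intro y hy
        have hT : 0 ≤ Real.log (Real.log y) + 4 * |W| := by have := hll y hy; positivity
        exact (hCB.scale hT (hSw y hy)).mono (hfin y hy)
      CD := by
        intro y hy
        have hT : 0 ≤ Real.log (Real.log y) + 4 * |W| := by have := hll y hy; positivity
        exact CDmono (CDscale hCD hT (hSw y hy)) (hfin y hy) }
    (by omega)
  refine ⟨C * Real.exp ((7 + E) * (4 * |W|)), fun y hy => ?_⟩
  simp only [NBT_pow]
  rw [expB hexp hmer k z y (by omega)]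
  have h2 := hC y hy
  have hly : 0 < Real.log y := Real.log_pos (by exact_mod_cast (by omega : 1 < y))
  have h4 : Real.exp ((7 + E) * Real.log (Real.log y)) = (Real.log y) ^ ((7 : ℝ) + E) := by
    rw [Real.rpow_def_of_pos hly, mul_comm]
  beta_reduce at h2
  rw [mul_add, Real.exp_add, h4] at h2
  calc _ ≤ _ := le_abs_self _
    _ ≤ _ := h2
    _ = _ := by ring

end Pool.Agent.N572.H
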