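import Mathlib
import Pool.Agent.N870.H.Stm8
import Pool.Agent.N572.H.MAK8A
import Pool.Agent.N222.D.ATX
import Pool.Agent.N263.D.CMB
import Pool.Agent.TH841.PM.Exp
import Pool.Agent.TH841.PT.Merge
import Pool.Agent.Y776.Z8.WGT
import Pool.Agent.Y723.Z8.ChrZ

/-!
# Project H (helper870), part MAK8
-/

set_option autoImplicit false

namespace Pool.Agent.N572.H

theorem t_MAK8 : Pool.Agent.N870.H.S_MAK8 := by
  intro k E hk hE hE'
  exact mak8_of Pool.Agent.N222.D.t_ATX Pool.Agent.N263.D.t_CMB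
    Pool.Agent.TH841.PT.MergeF.merge Pool.Agent.TH841.PM.EXPf.expk
    (Pool.Agent.Y776.Z8.wgt_of Pool.Agent.Y723.Z8.Chr.chr) hk hE hE'

end Pool.Agent.N572.H
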